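import Pool.Agent.H879.RV.Defs

set_option autoImplicit false

namespace Pool.Agent.H879.RV

open Polynomial

variable {K : Type} [Field K]

/-- the top part has a term with the largest exponent of the outer variable -/
theorem top_exists {r : ℕ} {p : K[X][X]}
    (hp' : ∃ i j : ℕ, i + j = r ∧ (p.coeff i).coeff j ≠ 0) :
    ∃ l ≤ r, (p.coeff l).coeff (r - l) ≠ 0 ∧ ∀ i j : ℕ, l < i → i + j = r →
      (p.coeff i).coeff j = 0 := by
  classical
  obtain ⟨l₀, j₀, h₀, hne₀⟩ := hp'
  have hj₀ : j₀ = r - l₀ := by omega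
  rw [hj₀] at hne₀
  obtain ⟨l, hl, hmax⟩ := Finset.exists_max_image
    ((Finset.range (r + 1)).filter fun l => (p.coeff l).coeff (r - l) ≠ 0) id
    ⟨l₀, Finset.mem_filter.2 ⟨Finset.mem_range.2 (by omega), hne₀⟩⟩
  rw [Finset.mem_filter, Finset.mem_range] at hl
  refine ⟨l, by omega, hl.2, fun i j hi hij => ?_⟩
  by_contra hne
  have h2 : j = r - i := by omega
  rw [h2] at hne
  have := hmax i (Finset.mem_filter.2 ⟨Finset.mem_range.2 (by omega), hne⟩)
  simp only [id] at this
  omega

theorem td_zero {r : ℕ} {p : K[X][X]} (hp : TD (r : ℤ) p) {i j : ℕ} (h : r < i + j) :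
    (p.coeff i).coeff j = 0 := by
  by_contra hne
  have := hp i j hne
  omega

theorem td_mul_top {p q : K[X][X]} {r s : ℕ} (hp : TD (r : ℤ) p)
    (hp' : ∃ i j : ℕ, i + j = r ∧ (p.coeff i).coeff j ≠ 0) (hq : TD (s : ℤ) q)
    (hq' : ∃ i j : ℕ, i + j = s ∧ (q.coeff i).coeff j ≠ 0) :
    TD ((r : ℤ) + s) (p * q) ∧ ∃ i j : ℕ, i + j = r + s ∧ ((p * q).coeff i).coeff j ≠ 0 := by
  classical
  constructor
  · intro i j h
    by_contra hcon
    apply h
    rw [coeff_mul, finsetSum_coeff]
    refine Finset.sum_eq_zero ?_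
    rintro ⟨a, b⟩ hab
    rw [Finset.HasAntidiagonal.mem_antidiagonal] at hab
    simp only at hab ⊢
    rw [coeff_mul]
    refine Finset.sum_eq_zero ?_
    rintro ⟨c, d⟩ hcd
    rw [Finset.HasAntidiagonal.mem_antidiagonal] at hcd
    simp only at hcd ⊢
    rcases Nat.lt_or_ge r (a + c) with h1 | h1
    · rw [td_zero hp h1, zero_mul]
    · rw [td_zero hq (by omega), mul_zero]
  · obtain ⟨l₁, hl₁, hn₁, hm₁⟩ := top_exists hp'
    obtain ⟨l₂, hl₂, hn₂, hm₂⟩ := top_exists hq'
    refine ⟨l₁ + l₂, (r - l₁) + (s - l₂), by omega, ?_⟩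
    rw [coeff_mul, finsetSum_coeff, Finset.sum_eq_single (l₁, l₂)]
    · rw [coeff_mul, Finset.sum_eq_single (r - l₁, s - l₂)]
      · exact mul_ne_zero hn₁ hn₂
      · rintro ⟨c, d⟩ hcd hne
        rw [Finset.HasAntidiagonal.mem_antidiagonal] at hcd
        simp only at hcd ⊢
        rcases lt_trichotomy c (r - l₁) with h2 | h2 | h2
        · rw [td_zero hq (by omega), mul_zero]
        · exact absurd (Prod.ext h2 (by simp only; omega)) hne
        · rw [td_zero hp (by omega), zero_mul]
      · intro h2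
        exfalso
        apply h2
        rw [Finset.HasAntidiagonal.mem_antidiagonal]
    · rintro ⟨a, b⟩ hab hne
      rw [Finset.HasAntidiagonal.mem_antidiagonal] at hab
      simp only at hab ⊢
      rw [coeff_mul]
      refine Finset.sum_eq_zero ?_
      rintro ⟨c, d⟩ hcd
      rw [Finset.HasAntidiagonal.mem_antidiagonal] at hcd
      simp only at hcd ⊢
      rcases lt_trichotomy (a + c) r with h2 | h2 | h2
      · rw [td_zero hq (by omega), mul_zero]
      · have h3 : b + d = s := by omega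
        rcases lt_trichotomy a l₁ with h4 | h4 | h4
        · rw [hm₂ b d (by omega) h3, mul_zero]
        · exact absurd (Prod.ext h4 (by simp only; omega)) hne
        · rw [hm₁ a c h4 h2, zero_mul]
      · rw [td_zero hp h2, zero_mul]
    · intro h2
      exfalso
      apply h2
      rw [Finset.HasAntidiagonal.mem_antidiagonal]

end Pool.Agent.H879.RV
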